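import Pool.Agent.Helper62.DSH.StB

/-!
# Project DSH (MP_087a81_gt), module CUB: Poincare inequality modulo finitely many means
-/

set_option autoImplicit false

open Set Filter Topology MeasureTheory
open scoped ContDiff ENNReal

noncomputable section

namespace Pool.Agent.Helper5.DSH

open Helper62.LH Helper62.DSH

/-- continuous functions are integrable on bounded sets -/
private theorem int_bdd {n : ℕ} {D : Set (E n)} (hb : Bornology.IsBounded D) {f : E n → ℝ}
    (hf : Continuous f) : IntegrableOn f D := by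
  have h1 : IsCompact (closure D) := hb.isCompact_closure
  exact (hf.continuousOn.integrableOn_compact h1).mono_set subset_closure

/-- the inequality on one convex set -/
private theorem one_set (hCua : TCua) {n : ℕ} {D : Set (E n)} (hm : MeasurableSet D)
    (hc : Convex ℝ D) (hb : Bornology.IsBounded D) {d θ : ℝ}
    (hd : ∀ x ∈ D, ∀ y ∈ D, ‖x - y‖ ≤ d) (hθ : 2 ^ n * d ^ 2 ≤ θ) {v : E n → ℝ}
    (hv : ContDiff ℝ 1 v) :
    ∫ x in D, v x ^ 2 ≤ θ * (∫ x in D, ‖fderiv ℝ v x‖ ^ 2) +
      (volume.real D)⁻¹ * (∫ x in D, v x) ^ 2 := by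
  have hvc : Continuous v := hv.continuous
  have hG : 0 ≤ ∫ x in D, ‖fderiv ℝ v x‖ ^ 2 :=
    integral_nonneg fun x => sq_nonneg _
  have hθ0 : 0 ≤ θ := le_trans (by positivity) hθ
  have hfin : volume D ≠ ⊤ := (hb.measure_lt_top).ne
  obtain ⟨a, ha⟩ : ∃ a : ℝ, a = volume.real D := ⟨_, rfl⟩
  obtain ⟨B, hB⟩ : ∃ B : ℝ, B = ∫ x in D, v x ^ 2 := ⟨_, rfl⟩
  obtain ⟨I, hI⟩ : ∃ I : ℝ, I = ∫ x in D, v x := ⟨_, rfl⟩
  obtain ⟨G, hGd⟩ : ∃ G : ℝ, G = ∫ x in D, ‖fderiv ℝ v x‖ ^ 2 := ⟨_, rfl⟩
  rw [← hGd] at hG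
  rw [← ha, ← hB, ← hI, ← hGd]
  have ha0 : 0 ≤ a := by rw [ha]; exact measureReal_nonneg
  rcases ha0.eq_or_lt with h0 | hpos
  · have h1 : volume D = 0 := by
      rw [ha] at h0
      exact (measureReal_eq_zero_iff hfin).1 h0.symm
    have h2 : B = 0 := by rw [hB]; exact setIntegral_measure_zero _ h1
    rw [h2, ← h0, inv_zero, zero_mul, add_zero]
    positivity
  · have hi1 : IntegrableOn v D := int_bdd hb hvc
    have hi2 : IntegrableOn (fun x => v x ^ 2) D := int_bdd hb (hvc.pow 2)
    have hic : ∀ c : ℝ, IntegrableOn (fun _ : E n => c) D := fun c =>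
      int_bdd hb continuous_const
    have hin : ∀ x : E n, ∫ y in D, (v x - v y) ^ 2 = a * v x ^ 2 - 2 * I * v x + B := by
      intro x
      have h1 : (fun y : E n => (v x - v y) ^ 2) =
          fun y => (v x ^ 2 - (2 * v x) * v y) + v y ^ 2 := by
        funext y
        ring
      have h2 : IntegrableOn (fun y => (2 * v x) * v y) D := hi1.const_mul _
      have h3 : IntegrableOn (fun y => v x ^ 2 - (2 * v x) * v y) D := (hic (v x ^ 2)).sub h2
      rw [h1, integral_add h3 hi2, integral_sub (hic (v x ^ 2)) h2,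
        integral_const_mul, setIntegral_const, ← hI, ← hB, ← ha, smul_eq_mul]
      ring
    have hout : ∫ x in D, (∫ y in D, (v x - v y) ^ 2) = 2 * (a * B - I ^ 2) := by
      have h1 : (fun x : E n => ∫ y in D, (v x - v y) ^ 2) =
          fun x => (a * v x ^ 2 - 2 * I * v x) + B := by
        funext x
        exact hin x
      have h2 : IntegrableOn (fun x => a * v x ^ 2) D := hi2.const_mul _
      have h3 : IntegrableOn (fun x => 2 * I * v x) D := hi1.const_mul _
      have h4 : IntegrableOn (fun x => a * v x ^ 2 - 2 * I * v x) D := h2.sub h3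
      rw [h1, integral_add h4 (hic B), integral_sub h2 h3, integral_const_mul,
        integral_const_mul, setIntegral_const, ← hI, ← hB, ← ha, smul_eq_mul]
      ring
    have hmain := hCua n D hm hc hb d hd v hv
    rw [hout, ← ha, ← hGd] at hmain
    -- `2 (a B - I²) ≤ 2^n d² a G`
    have h4 : 2 ^ n * d ^ 2 * a * G ≤ θ * a * G := by
      have : 2 ^ n * d ^ 2 * (a * G) ≤ θ * (a * G) := mul_le_mul_of_nonneg_right hθ (by positivity)
      linarith [this, mul_assoc (2 ^ n * d ^ 2) a G, mul_assoc θ a G]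
    have h6 : 0 ≤ θ * a * G := by positivity
    have h5 : a * B ≤ θ * a * G + I ^ 2 := by nlinarith
    have h7 : a * B ≤ a * (θ * G + a⁻¹ * I ^ 2) := by
      have : a * (θ * G + a⁻¹ * I ^ 2) = θ * a * G + I ^ 2 := by
        field_simp
      rw [this]
      exact h5
    exact le_of_mul_le_mul_left h7 hpos

/-- euclidean norm and coordinates -/
private theorem norm_le_coord {n : ℕ} {c : ℝ} (hc : 0 ≤ c) {x : E n} (h : ∀ i, |x i| ≤ c) :
    ‖x‖ ≤ √n * c := by
  rw [EuclideanSpace.norm_eq]
  apply Real.sqrt_le_iff.2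
  refine ⟨by positivity, ?_⟩
  rw [mul_pow, Real.sq_sqrt (Nat.cast_nonneg n)]
  calc ∑ i, ‖x i‖ ^ 2 ≤ ∑ _i : Fin n, c ^ 2 := by
        refine Finset.sum_le_sum fun i _ => ?_
        rw [Real.norm_eq_abs]
        exact pow_le_pow_left₀ (abs_nonneg _) (h i) 2
    _ = n * c ^ 2 := by rw [Finset.sum_const, Finset.card_univ, Fintype.card_fin, nsmul_eq_mul]

private theorem coord_le_norm {n : ℕ} (x : E n) (i : Fin n) : |x i| ≤ ‖x‖ := by
  rw [← Real.norm_eq_abs]
  exact PiLp.norm_apply_le x i

/-- boxes -/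
private def box {n : ℕ} (a b : Fin n → ℝ) : Set (E n) := {x | ∀ i, a i ≤ x i ∧ x i < b i}

private theorem box_meas {n : ℕ} (a b : Fin n → ℝ) : MeasurableSet (box a b) := by
  have h : box a b = ⋂ i, {x : E n | a i ≤ x i ∧ x i < b i} := by
    ext x
    simp [box]
  rw [h]
  refine MeasurableSet.iInter fun i => ?_
  have hm : Measurable fun x : E n => x i := by fun_prop
  exact (measurableSet_le measurable_const hm).inter (measurableSet_lt hm measurable_const)

private theorem box_convex {n : ℕ} (a b : Fin n → ℝ) : Convex ℝ (box a b) := by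
  intro x hx y hy s t hs ht hst i
  have h1 := hx i
  have h2 := hy i
  show a i ≤ s * x i + t * y i ∧ s * x i + t * y i < b i
  have h3 : ∀ c : ℝ, s * c + t * c = c := fun c => by rw [← add_mul, hst, one_mul]
  constructor
  · rw [← h3 (a i)]
    exact add_le_add (mul_le_mul_of_nonneg_left h1.1 hs) (mul_le_mul_of_nonneg_left h2.1 ht)
  · rw [← h3 (b i)]
    rcases hs.eq_or_lt with h0 | hpos
    · have h4 : t = 1 := by linarith
      rw [← h0, h4]
      linarith [h2.2]
    · exact add_lt_add_of_lt_of_le (mul_lt_mul_of_pos_left h1.2 hpos)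
        (mul_le_mul_of_nonneg_left h2.2.le ht)

theorem hCub (hCua : TCua) : TCub := by
  intro n K0 hK0
  by_cases hemp : K0 = ∅
  · refine ⟨∅, MeasurableSet.empty, Bornology.isBounded_empty, by rw [hemp], ?_⟩
    intro θ hθ
    refine ⟨0, fun i => i.elim0, 0, fun _ => rfl, fun i => i.elim0, fun i => i.elim0, le_rfl, ?_⟩
    intro v _
    simp
  · obtain ⟨r0, hr0⟩ := hK0.isBounded.subset_ball (0 : E n)
    obtain ⟨r, hr, hr1⟩ : ∃ r : ℝ, 0 < r ∧ r0 ≤ r := ⟨max r0 1, by positivity, le_max_left _ _⟩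
    obtain ⟨Q, hQ⟩ : ∃ Q : Set (E n), Q = box (fun _ => -r) (fun _ => r) := ⟨_, rfl⟩
    have hQb : Bornology.IsBounded Q := by
      rw [isBounded_iff_forall_norm_le]
      refine ⟨√n * r, fun x hx => norm_le_coord hr.le fun i => ?_⟩
      rw [hQ] at hx
      have := hx i
      rw [abs_le]
      exact ⟨this.1, this.2.le⟩
    refine ⟨Q, by rw [hQ]; exact box_meas _ _, hQb, ?_, ?_⟩
    · intro x hx
      have h1 := hr0 hx
      rw [mem_ball_zero_iff] at h1
      rw [hQ]
      intro i
      have h2 := abs_lt.1 (lt_of_le_of_lt (coord_le_norm x i) (h1.trans_le hr1))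
      exact ⟨h2.1.le, h2.2⟩
    · intro θ hθ
      -- the mesh
      obtain ⟨M0, hM0⟩ := exists_nat_ge (2 ^ n * n * (2 * r) ^ 2 / θ)
      obtain ⟨M, hM1, hM2⟩ : ∃ M : ℕ, 1 ≤ M ∧ 2 ^ n * n * (2 * r) ^ 2 / θ ≤ M :=
        ⟨M0 + 1, by omega, by push_cast; linarith⟩
      have hMp : (1 : ℝ) ≤ M := by exact_mod_cast hM1
      have hM0 : (0 : ℝ) < M := by linarith
      obtain ⟨s, hs⟩ : ∃ s : ℝ, s = 2 * r / M := ⟨_, rfl⟩
      have hsp : 0 < s := by rw [hs]; positivity
      have hsM : s * M = 2 * r := by rw [hs]; field_simp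
      have hd : 2 ^ n * (√n * s) ^ 2 ≤ θ := by
        rw [mul_pow, Real.sq_sqrt (Nat.cast_nonneg n), hs, div_pow]
        rw [div_le_iff₀ hθ] at hM2
        have h1 : 2 ^ n * (n * ((2 * r) ^ 2 / (M : ℝ) ^ 2)) = 2 ^ n * n * (2 * r) ^ 2 / (M : ℝ) ^ 2 := by
          ring
        rw [h1, div_le_iff₀ (by positivity)]
        have h2 : (M : ℝ) * θ ≤ (M : ℝ) ^ 2 * θ := by
          apply mul_le_mul_of_nonneg_right _ hθ.le
          nlinarith
        linarith
      obtain ⟨S, hS⟩ : ∃ S : (Fin n → Fin M) → Set (E n),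
        S = fun J => box (fun i => -r + s * (J i : ℕ)) (fun i => -r + s * ((J i : ℕ) + 1)) := ⟨_, rfl⟩
      have hSm : ∀ J, MeasurableSet (S J) := fun J => by rw [hS]; exact box_meas _ _
      have hSc : ∀ J, Convex ℝ (S J) := fun J => by rw [hS]; exact box_convex _ _
      have hSQ : ∀ J, S J ⊆ Q := by
        intro J x hx
        rw [hS] at hx
        rw [hQ]
        intro i
        have h1 := hx i
        have h2 : (0 : ℝ) ≤ s * (J i : ℕ) := by positivity
        have h3 : s * (((J i : ℕ) : ℝ) + 1) ≤ s * M := by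
          apply mul_le_mul_of_nonneg_left _ hsp.le
          exact_mod_cast (J i).isLt
        constructor
        · linarith [h1.1]
        · linarith [h1.2]
      have hSb : ∀ J, Bornology.IsBounded (S J) := fun J => hQb.subset (hSQ J)
      have hSd : ∀ J, ∀ x ∈ S J, ∀ y ∈ S J, ‖x - y‖ ≤ √n * s := by
        intro J x hx y hy
        rw [hS] at hx hy
        refine norm_le_coord hsp.le fun i => ?_
        have h1 := hx i
        have h2 := hy i
        show |x i - y i| ≤ s
        rw [abs_le]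
        constructor
        · nlinarith [h1.1, h2.2]
        · nlinarith [h1.2, h2.1]
      -- index of a point
      have hidx : ∀ J, ∀ x ∈ S J, ∀ i, (J i : ℕ) = ⌊(x i + r) / s⌋₊ := by
        intro J x hx i
        rw [hS] at hx
        have h1 := hx i
        symm
        rw [Nat.floor_eq_iff (div_nonneg (by
          have h2 : (0 : ℝ) ≤ s * (J i : ℕ) := by positivity
          linarith [h1.1]) hsp.le)]
        constructor
        · rw [le_div_iff₀ hsp]
          linarith [h1.1]
        · rw [div_lt_iff₀ hsp]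
          linarith [h1.2]
      have hdisj : Pairwise (Function.onFun Disjoint S) := by
        intro J J' hne
        rw [Function.onFun, Set.disjoint_left]
        intro x hx hx'
        apply hne
        funext i
        apply Fin.ext
        rw [hidx J x hx i, hidx J' x hx' i]
      have hun : (⋃ J, S J) = Q := by
        apply Set.Subset.antisymm (Set.iUnion_subset hSQ)
        intro x hx
        rw [hQ] at hx
        have h0 : ∀ i, 0 ≤ (x i + r) / s := fun i =>
          div_nonneg (by linarith [(hx i).1]) hsp.le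
        have h1 : ∀ i, ⌊(x i + r) / s⌋₊ < M := by
          intro i
          rw [Nat.floor_lt (h0 i), div_lt_iff₀ hsp]
          linarith [(hx i).2]
        rw [Set.mem_iUnion]
        refine ⟨fun i => ⟨_, h1 i⟩, ?_⟩
        rw [hS]
        intro i
        have h2 := Nat.floor_le (h0 i)
        have h3 := Nat.lt_floor_add_one ((x i + r) / s)
        rw [le_div_iff₀ hsp] at h2
        rw [div_lt_iff₀ hsp] at h3
        constructor
        · show -r + s * ((⌊(x i + r) / s⌋₊ : ℕ) : ℝ) ≤ x i
          linarith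
        · show x i < -r + s * (((⌊(x i + r) / s⌋₊ : ℕ) : ℝ) + 1)
          linarith
      -- reindexing
      obtain ⟨N, ⟨e⟩⟩ : ∃ N : ℕ, Nonempty (Fin N ≃ (Fin n → Fin M)) :=
        ⟨_, ⟨(Fintype.equivFin _).symm⟩⟩
      refine ⟨N, fun k => S (e k), ∑ J, (volume.real (S J))⁻¹, fun h => absurd h hemp,
        fun k => hSm _, fun k => hSQ _, Finset.sum_nonneg fun J _ => inv_nonneg.2
          measureReal_nonneg, ?_⟩
      intro v hv
      have hvc : Continuous v := hv.continuous
      have hgc : Continuous fun x => ‖fderiv ℝ v x‖ ^ 2 :=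
        ((hv.continuous_fderiv (by norm_num)).norm).pow 2
      have hvc2 : Continuous fun x => v x ^ 2 := hvc.pow 2
      rw [← hun, integral_iUnion_fintype hSm hdisj fun J => int_bdd (hSb J) hvc2,
        integral_iUnion_fintype hSm hdisj fun J => int_bdd (hSb J) hgc, Finset.mul_sum]
      have h1 : ∑ k, (∫ x in S (e k), v x) ^ 2 = ∑ J, (∫ x in S J, v x) ^ 2 :=
        e.sum_comp fun J => (∫ x in S J, v x) ^ 2
      rw [h1, Finset.mul_sum, ← Finset.sum_add_distrib]
      refine Finset.sum_le_sum fun J _ => ?_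
      refine (one_set hCua (hSm J) (hSc J) (hSb J) (hSd J) hd hv).trans ?_
      gcongr
      exact Finset.single_le_sum (f := fun J => (volume.real (S J))⁻¹)
        (fun J _ => inv_nonneg.2 measureReal_nonneg) (Finset.mem_univ J)

end Pool.Agent.Helper5.DSH
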